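import Pool.Agent.Kiss34.LP

/-! MP_0ddb56: antipodal kissing configurations in dimension 16 and nearly orthogonal pairs. -/

set_option autoImplicit false

namespace Pool.Agent.Results.MP_0ddb56_co.AntipodalWindow

open Finset Pool.Agent.Kiss34

/-- The window. -/
def win (t : ℝ) : Prop := 0 < |t| ∧ |t| < 1 / 4

theorem f_nonpos (t : ℝ) (h1 : -(1 / 2) ≤ t) (h2 : t ≤ 1 / 2) (hw : ¬ win t) :
    t ^ 2 * (t ^ 2 - 1 / 4) * (t ^ 2 - 1 / 16) ≤ 0 := by
  rcases eq_or_ne t 0 with h0 | h0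
  · rw [h0]
    norm_num
  · have h3 : 1 / 4 ≤ |t| := by
      by_contra h
      exact hw ⟨abs_pos.mpr h0, not_le.mp h⟩
    have h4 : (1 : ℝ) / 16 ≤ t ^ 2 := by
      rw [← sq_abs]
      nlinarith
    have e3 : t ^ 2 - 1 / 4 ≤ 0 := by nlinarith
    exact mul_nonpos_of_nonpos_of_nonneg (mul_nonpos_of_nonneg_of_nonpos (sq_nonneg t) e3)
      (by linarith)

theorem f_le (t : ℝ) (hw : win t) :
    t ^ 2 * (t ^ 2 - 1 / 4) * (t ^ 2 - 1 / 16) ≤ 1 / 4608 := by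
  have h1 : t ^ 2 ≤ 1 / 16 := by
    rw [← sq_abs]
    nlinarith [hw.1, hw.2]
  have h0 : 0 ≤ t ^ 2 := sq_nonneg t
  generalize t ^ 2 = v at h0 h1 ⊢
  have hA : 0 ≤ 407 / 1600 - v := by linarith
  nlinarith [mul_nonneg hA (sq_nonneg (v - 93 / 3200))]

/-- An antipodal kissing configuration of `N` points in `R^16` has at least
`(3/2) N (N - 4320)` ordered pairs of points with `0 < |inner product| < 1/4`. -/
theorem result (S : Finset (EuclideanSpace ℝ (Fin 16))) (hS : ∀ x ∈ S, ‖x‖ = 1)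
    (hneg : ∀ x ∈ S, -x ∈ S)
    (hK : ∀ x ∈ S, ∀ y ∈ S, x ≠ y → 1 ≤ ‖x - y‖) :
    3 / 2 * ((S.card : ℝ) * ((S.card : ℝ) - 4320)) ≤
      (Set.ncard {p : EuclideanSpace ℝ (Fin 16) × EuclideanSpace ℝ (Fin 16) |
        p.1 ∈ S ∧ p.2 ∈ S ∧ 0 < |(inner ℝ p.1 p.2 : ℝ)| ∧ |(inner ℝ p.1 p.2 : ℝ)| < 1 / 4} : ℝ) := by
  classical
  set W : Finset (EuclideanSpace ℝ (Fin 16) × EuclideanSpace ℝ (Fin 16)) :=
    (S ×ˢ S).filter fun p => win (inner ℝ p.1 p.2) with hW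
  have hset : {p : EuclideanSpace ℝ (Fin 16) × EuclideanSpace ℝ (Fin 16) |
        p.1 ∈ S ∧ p.2 ∈ S ∧ 0 < |(inner ℝ p.1 p.2 : ℝ)| ∧
          |(inner ℝ p.1 p.2 : ℝ)| < 1 / 4} = (W : Set _) := by
    ext p
    rw [hW, Finset.mem_coe, Finset.mem_filter, Finset.mem_product]
    exact ⟨fun h => ⟨⟨h.1, h.2.1⟩, h.2.2⟩, fun h => ⟨h.1.1, h.1.2, h.2⟩⟩
  rw [hset, Set.ncard_coe_finset]
  have hlp := lp_anti ![(1 : ℝ) / 3072, 0, 17 / 704, 0, 5 / 16, 0, 1, 0]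
    (by intro k; fin_cases k <;> norm_num) _ anti_cert
    (by intro t; ring) S hS hneg
  have hsum : ∑ x ∈ S, ∑ y ∈ (S.erase x).erase (-x), (inner ℝ x y : ℝ) ^ 2 *
      ((inner ℝ x y) ^ 2 - 1 / 4) * ((inner ℝ x y) ^ 2 - 1 / 16) ≤ 1 / 4608 * (W.card : ℝ) := by
    have h1 : ∀ x ∈ S, ∀ y ∈ (S.erase x).erase (-x), (inner ℝ x y : ℝ) ^ 2 *
        ((inner ℝ x y) ^ 2 - 1 / 4) * ((inner ℝ x y) ^ 2 - 1 / 16) ≤
          if win (inner ℝ x y) then (1 / 4608 : ℝ) else 0 := by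
      intro x hx y hy
      have hy1 := Finset.ne_of_mem_erase hy
      have hy2 := Finset.mem_of_mem_erase hy
      have hy3 := Finset.mem_of_mem_erase hy2
      have hy4 := Finset.ne_of_mem_erase hy2
      split_ifs with hw
      · exact f_le _ hw
      · refine f_nonpos _ ?_ (inner_le_half (hS x hx) (hS y hy3) (hK x hx y hy3 hy4.symm)) hw
        have h5 : x ≠ -y := fun h => hy1 (by rw [h, neg_neg])
        have h6 := inner_le_half (hS x hx) (hS (-y) (hneg y hy3)) (hK x hx (-y) (hneg y hy3) h5)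
        rw [inner_neg_right] at h6
        linarith
    have h2 : (W.card : ℝ) = ∑ x ∈ S, ∑ y ∈ S, if win (inner ℝ x y) then (1 : ℝ) else 0 := by
      rw [hW, Finset.card_filter, ← Finset.sum_product']
      push_cast
      rfl
    have h3 : ∀ x ∈ S, ∑ y ∈ (S.erase x).erase (-x),
        (if win (inner ℝ x y) then (1 / 4608 : ℝ) else 0) ≤
        1 / 4608 * ∑ y ∈ S, if win (inner ℝ x y) then (1 : ℝ) else 0 := by
      intro x hx
      rw [Finset.mul_sum]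
      refine (Finset.sum_le_sum_of_subset_of_nonneg ((Finset.erase_subset _ _).trans
        (Finset.erase_subset x S)) ?_).trans (Finset.sum_le_sum fun y _ => ?_)
      · intro y _ _
        split_ifs <;> norm_num
      · split_ifs <;> norm_num
    calc ∑ x ∈ S, ∑ y ∈ (S.erase x).erase (-x), (inner ℝ x y : ℝ) ^ 2 *
          ((inner ℝ x y) ^ 2 - 1 / 4) * ((inner ℝ x y) ^ 2 - 1 / 16)
        ≤ ∑ x ∈ S, ∑ y ∈ (S.erase x).erase (-x),
            (if win (inner ℝ x y) then (1 / 4608 : ℝ) else 0) :=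
          Finset.sum_le_sum fun x hx => Finset.sum_le_sum fun y hy => h1 x hx y hy
      _ ≤ ∑ x ∈ S, 1 / 4608 * ∑ y ∈ S, (if win (inner ℝ x y) then (1 : ℝ) else 0) :=
          Finset.sum_le_sum fun x hx => h3 x hx
      _ = 1 / 4608 * (W.card : ℝ) := by rw [h2, Finset.mul_sum]
  have h0 : (![(1 : ℝ) / 3072, 0, 17 / 704, 0, 5 / 16, 0, 1, 0] :
    Fin 8 → ℝ) 0 = 1 / 3072 := rfl
  rw [h0] at hlp
  norm_num at hlp
  nlinarith

end Pool.Agent.Results.MP_0ddb56_co.AntipodalWindow
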