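import Pool.Agent.Kiss34.LP

/-! MP_0ddb56: kissing configurations in dimension 16 with inner products of small denominator. -/

set_option autoImplicit false

namespace Pool.Agent.Results.MP_0ddb56_co.Denominators

open Finset Pool.Agent.Kiss34

/-- One certificate gives one bound. -/
theorem main (m : ℕ) (hm : 0 < m) (c : Fin 8 → ℝ) (hc : ∀ k, 0 ≤ c k) (f : ℝ → ℝ)
    (hf : ∀ t, f t = ∑ k, c k * gp k t)
    (hle : ∀ j : ℤ, -(m : ℤ) ≤ j → 2 * j ≤ m → f ((j : ℝ) / m) ≤ 0) (h1 : 0 ≤ f 1)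
    (S : Finset (EuclideanSpace ℝ (Fin 16))) (hS : ∀ x ∈ S, ‖x‖ = 1)
    (hK : ∀ x ∈ S, ∀ y ∈ S, x ≠ y → 1 ≤ ‖x - y‖)
    (hI : ∀ x ∈ S, ∀ y ∈ S, ∃ j : ℤ, inner ℝ x y = (j : ℝ) / m) :
    c 0 * (S.card : ℝ) ≤ f 1 := by
  refine card_le_of_cert c hc f hf S hS (fun x hx y hy hxy => ?_) h1
  obtain ⟨j, hj⟩ := hI x hx y hy
  rw [hj]
  have hm' : (0 : ℝ) < m := by exact_mod_cast hm
  refine hle j ?_ ?_
  · have h := neg_one_le_inner (hS x hx) (hS y hy)
    rw [hj, le_div_iff₀ hm'] at h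
    have h2 : ((-(m : ℤ) : ℤ) : ℝ) ≤ j := by
      push_cast
      linarith
    exact_mod_cast h2
  · have h := inner_le_half (hS x hx) (hS y hy) (hK x hx y hy hxy)
    rw [hj, div_le_iff₀ hm'] at h
    have h2 : ((2 * j : ℤ) : ℝ) ≤ ((m : ℤ) : ℝ) := by
      push_cast
      linarith
    exact_mod_cast h2

theorem den1 (S : Finset (EuclideanSpace ℝ (Fin 16))) (hS : ∀ x ∈ S, ‖x‖ = 1)
    (hK : ∀ x ∈ S, ∀ y ∈ S, x ≠ y → 1 ≤ ‖x - y‖)
    (hI : ∀ x ∈ S, ∀ y ∈ S, ∃ j : ℤ, inner ℝ x y = (j : ℝ) / (1 : ℕ)) :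
    S.card ≤ 32 := by
  have h := main 1 (by norm_num)
    ![1 / 16, 1, 1, 0, 0, 0, 0, 0]
    (by intro k; fin_cases k <;> norm_num)
    (fun t => (t + 1) * t)
    (by
      intro t
      simp [gp, Fin.sum_univ_succ]
      ring)
    (by
      intro j h1 h2
      have h3 : j ≤ 0 := by omega
      have h4 : -1 ≤ j := by exact_mod_cast h1
      clear h1 h2
      interval_cases j <;> norm_num)
    (by norm_num) S hS hK hI
  norm_num at h
  have h' : (S.card : ℝ) < 32 + 1 := by linarith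
  have h'' : S.card < 32 + 1 := by exact_mod_cast h'
  omega

theorem den2 (S : Finset (EuclideanSpace ℝ (Fin 16))) (hS : ∀ x ∈ S, ‖x‖ = 1)
    (hK : ∀ x ∈ S, ∀ y ∈ S, x ≠ y → 1 ≤ ‖x - y‖)
    (hI : ∀ x ∈ S, ∀ y ∈ S, ∃ j : ℤ, inner ℝ x y = (j : ℝ) / (2 : ℕ)) :
    S.card ≤ 480 := by
  have h := main 2 (by norm_num)
    ![1, 48 / 7, 48 / 11, 0, 0, 2816 / 7, 512, 0]
    (by intro k; fin_cases k <;> norm_num)
    (fun t => 144 / 7 * t + 48 * t ^ 2 - 1280 / 7 * t ^ 3 - 320 * t ^ 4 + 2816 / 7 * t ^ 5 +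
      512 * t ^ 6)
    (by
      intro t
      simp [gp, Fin.sum_univ_succ]
      ring)
    (by
      intro j h1 h2
      have h3 : j ≤ 1 := by omega
      have h4 : -2 ≤ j := by exact_mod_cast h1
      clear h1 h2
      interval_cases j <;> norm_num)
    (by norm_num) S hS hK hI
  norm_num at h
  have h0 : (S.card : ℝ) ≤ 480 := by exact_mod_cast h
  have h' : (S.card : ℝ) < 480 + 1 := by linarith
  have h'' : S.card < 480 + 1 := by exact_mod_cast h'
  omega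

theorem den3 (S : Finset (EuclideanSpace ℝ (Fin 16))) (hS : ∀ x ∈ S, ‖x‖ = 1)
    (hK : ∀ x ∈ S, ∀ y ∈ S, x ≠ y → 1 ≤ ‖x - y‖)
    (hI : ∀ x ∈ S, ∀ y ∈ S, ∃ j : ℤ, inner ℝ x y = (j : ℝ) / (3 : ℕ)) :
    S.card ≤ 512 := by
  have h := main 3 (by norm_num)
    ![1 / 288, 1 / 18, 17 / 90, 1, 1, 0, 0, 0]
    (by intro k; fin_cases k <;> norm_num)
    (fun t => (t + 1) * (t + 1 / 3) * t * (t - 1 / 3))
    (by
      intro t
      simp [gp, Fin.sum_univ_succ]
      ring)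
    (by
      intro j h1 h2
      have h3 : j ≤ 1 := by omega
      have h4 : -3 ≤ j := by exact_mod_cast h1
      clear h1 h2
      interval_cases j <;> norm_num)
    (by norm_num) S hS hK hI
  norm_num at h
  have h' : (S.card : ℝ) < 512 + 1 := by linarith
  have h'' : S.card < 512 + 1 := by exact_mod_cast h'
  omega

theorem den4 (S : Finset (EuclideanSpace ℝ (Fin 16))) (hS : ∀ x ∈ S, ‖x‖ = 1)
    (hK : ∀ x ∈ S, ∀ y ∈ S, x ≠ y → 1 ≤ ‖x - y‖)
    (hI : ∀ x ∈ S, ∀ y ∈ S, ∃ j : ℤ, inner ℝ x y = (j : ℝ) / (4 : ℕ)) :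
    S.card ≤ 4320 := by
  have h := main 4 (by norm_num)
    ![1 / 3072, 1 / 192, 17 / 704, 25 / 176, 5 / 16, 1, 1, 0]
    (by intro k; fin_cases k <;> norm_num)
    (fun t => (t + 1) * t * (t ^ 2 - 1 / 4) * (t ^ 2 - 1 / 16))
    (by
      intro t
      simp [gp, Fin.sum_univ_succ]
      ring)
    (by
      intro j h1 h2
      have h3 : j ≤ 2 := by omega
      have h4 : -4 ≤ j := by exact_mod_cast h1
      clear h1 h2
      interval_cases j <;> norm_num)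
    (by norm_num) S hS hK hI
  norm_num at h
  have h' : (S.card : ℝ) < 4320 + 1 := by linarith
  have h'' : S.card < 4320 + 1 := by exact_mod_cast h'
  omega

theorem den5 (S : Finset (EuclideanSpace ℝ (Fin 16))) (hS : ∀ x ∈ S, ‖x‖ = 1)
    (hK : ∀ x ∈ S, ∀ y ∈ S, x ≠ y → 1 ≤ ‖x - y‖)
    (hI : ∀ x ∈ S, ∀ y ∈ S, ∃ j : ℤ, inner ℝ x y = (j : ℝ) / (5 : ℕ)) :
    S.card ≤ 1751 := by
  have h := main 5 (by norm_num)
    ![221 / 240000, 221 / 15000, 2677 / 55000, 14 / 55, 17 / 40, 1, 1, 0]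
    (by intro k; fin_cases k <;> norm_num)
    (fun t => (t + 1) * (t + 2 / 5) * (t + 1 / 5) * t * (t - 1 / 5) * (t - 2 / 5))
    (by
      intro t
      simp [gp, Fin.sum_univ_succ]
      ring)
    (by
      intro j h1 h2
      have h3 : j ≤ 2 := by omega
      have h4 : -5 ≤ j := by exact_mod_cast h1
      clear h1 h2
      interval_cases j <;> norm_num)
    (by norm_num) S hS hK hI
  norm_num at h
  have h' : (S.card : ℝ) < 1751 + 1 := by linarith
  have h'' : S.card < 1751 + 1 := by exact_mod_cast h'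
  omega

theorem den7 (S : Finset (EuclideanSpace ℝ (Fin 16))) (hS : ∀ x ∈ S, ‖x‖ = 1)
    (hK : ∀ x ∈ S, ∀ y ∈ S, x ≠ y → 1 ≤ ‖x - y‖)
    (hI : ∀ x ∈ S, ∀ y ∈ S, ∃ j : ℤ, inner ℝ x y = (j : ℝ) / (7 : ℕ)) :
    S.card ≤ 2469 := by
  have h := main 7 (by norm_num)
    ![1871 / 1613472, 921091 / 62118672, 30903 / 369754, 129299 / 422576, 535 / 686, 1809 / 1274,
      12 / 7, 1]
    (by intro k; fin_cases k <;> norm_num)
    (fun t => (t + 6 / 7) * (t + 5 / 7) * (t + 3 / 7) * (t + 2 / 7) * t * (t - 1 / 7) * (t - 3 / 7))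
    (by
      intro t
      simp [gp, Fin.sum_univ_succ]
      ring)
    (by
      intro j h1 h2
      have h3 : j ≤ 3 := by omega
      have h4 : -7 ≤ j := by exact_mod_cast h1
      clear h1 h2
      interval_cases j <;> norm_num)
    (by norm_num) S hS hK hI
  norm_num at h
  have h' : (S.card : ℝ) < 2469 + 1 := by linarith
  have h'' : S.card < 2469 + 1 := by exact_mod_cast h'
  omega

theorem den9 (S : Finset (EuclideanSpace ℝ (Fin 16))) (hS : ∀ x ∈ S, ‖x‖ = 1)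
    (hK : ∀ x ∈ S, ∀ y ∈ S, x ≠ y → 1 ≤ ‖x - y‖)
    (hI : ∀ x ∈ S, ∀ y ∈ S, ∃ j : ℤ, inner ℝ x y = (j : ℝ) / (9 : ℕ)) :
    S.card ≤ 3238 := by
  have h := main 9 (by norm_num)
    ![541 / 839808, 90547 / 10392624, 2749 / 52488, 232499 / 1154736, 3055 / 5832, 697 / 702,
      11 / 9, 1]
    (by intro k; fin_cases k <;> norm_num)
    (fun t => (t + 6 / 9) * (t + 5 / 9) * (t + 3 / 9) * (t + 2 / 9) * t * (t - 1 / 9) * (t - 4 / 9))
    (by
      intro t
      simp [gp, Fin.sum_univ_succ]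
      ring)
    (by
      intro j h1 h2
      have h3 : j ≤ 4 := by omega
      have h4 : -9 ≤ j := by exact_mod_cast h1
      clear h1 h2
      interval_cases j <;> norm_num)
    (by norm_num) S hS hK hI
  norm_num at h
  have h' : (S.card : ℝ) < 3238 + 1 := by linarith
  have h'' : S.card < 3238 + 1 := by exact_mod_cast h'
  omega

theorem den11 (S : Finset (EuclideanSpace ℝ (Fin 16))) (hS : ∀ x ∈ S, ‖x‖ = 1)
    (hK : ∀ x ∈ S, ∀ y ∈ S, x ≠ y → 1 ≤ ‖x - y‖)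
    (hI : ∀ x ∈ S, ∀ y ∈ S, ∃ j : ℤ, inner ℝ x y = (j : ℝ) / (11 : ℕ)) :
    S.card ≤ 3737 := by
  have h := main 11 (by norm_num)
    ![1544725 / 3741536832, 161251 / 28344976, 20431 / 644204, 29289 / 234256, 1745 / 5324,
      2177 / 3146, 10 / 11, 1]
    (by intro k; fin_cases k <;> norm_num)
    (fun t => (t + 7 / 11) * (t + 6 / 11) * (t + 3 / 11) * (t + 2 / 11) * (t - 1 / 11) *
      (t - 2 / 11) * (t - 5 / 11))
    (by
      intro t
      simp [gp, Fin.sum_univ_succ]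
      ring)
    (by
      intro j h1 h2
      have h3 : j ≤ 5 := by omega
      have h4 : -11 ≤ j := by exact_mod_cast h1
      clear h1 h2
      interval_cases j <;> norm_num)
    (by norm_num) S hS hK hI
  norm_num at h
  have h' : (S.card : ℝ) < 3737 + 1 := by linarith
  have h'' : S.card < 3737 + 1 := by exact_mod_cast h'
  omega

theorem den13 (S : Finset (EuclideanSpace ℝ (Fin 16))) (hS : ∀ x ∈ S, ‖x‖ = 1)
    (hK : ∀ x ∈ S, ∀ y ∈ S, x ≠ y → 1 ≤ ‖x - y‖)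
    (hI : ∀ x ∈ S, ∀ y ∈ S, ∃ j : ℤ, inner ℝ x y = (j : ℝ) / (13 : ℕ)) :
    S.card ≤ 4277 := by
  have h := main 13 (by norm_num)
    ![8361703 / 24095430528, 4397623 / 849518384, 86245 / 2970344, 46287 / 386672, 5495 / 17576,
      227 / 338, 11 / 13, 1]
    (by intro k; fin_cases k <;> norm_num)
    (fun t => (t + 8 / 13) * (t + 7 / 13) * (t + 3 / 13) * (t + 2 / 13) * (t - 1 / 13) *
      (t - 2 / 13) * (t - 6 / 13))
    (by
      intro t
      simp [gp, Fin.sum_univ_succ]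
      ring)
    (by
      intro j h1 h2
      have h3 : j ≤ 6 := by omega
      have h4 : -13 ≤ j := by exact_mod_cast h1
      clear h1 h2
      interval_cases j <;> norm_num)
    (by norm_num) S hS hK hI
  norm_num at h
  have h' : (S.card : ℝ) < 4277 + 1 := by linarith
  have h'' : S.card < 4277 + 1 := by exact_mod_cast h'
  omega

/-- For the nine pairs `(m, B)`, a kissing configuration in `R^16` all of whose inner products
lie in `(1/m) Z` has at most `B` points. -/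
theorem result (m B : ℕ)
    (hm : (m, B) ∈ ({(1, 32), (2, 480), (3, 512), (4, 4320), (5, 1751), (7, 2469), (9, 3238),
      (11, 3737), (13, 4277)} : Finset (ℕ × ℕ)))
    (S : Finset (EuclideanSpace ℝ (Fin 16))) (hS : ∀ x ∈ S, ‖x‖ = 1)
    (hK : ∀ x ∈ S, ∀ y ∈ S, x ≠ y → 1 ≤ ‖x - y‖)
    (hI : ∀ x ∈ S, ∀ y ∈ S, ∃ j : ℤ, inner ℝ x y = (j : ℝ) / m) :
    S.card ≤ B := by
  simp only [Finset.mem_insert, Finset.mem_singleton, Prod.mk.injEq] at hm
  rcases hm with ⟨rfl, rfl⟩ | ⟨rfl, rfl⟩ | ⟨rfl, rfl⟩ | ⟨rfl, rfl⟩ | ⟨rfl, rfl⟩ | ⟨rfl, rfl⟩ |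
    ⟨rfl, rfl⟩ | ⟨rfl, rfl⟩ | ⟨rfl, rfl⟩
  · exact den1 S hS hK hI
  · exact den2 S hS hK hI
  · exact den3 S hS hK hI
  · exact den4 S hS hK hI
  · exact den5 S hS hK hI
  · exact den7 S hS hK hI
  · exact den9 S hS hK hI
  · exact den11 S hS hK hI
  · exact den13 S hS hK hI

end Pool.Agent.Results.MP_0ddb56_co.Denominators
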