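import Pool.Agent.Kiss34.LP

/-! MP_0ddb56: minimal vectors of integral lattices of dimension 16. -/

set_option autoImplicit false

namespace Pool.Agent.Results.MP_0ddb56_co.LatticeMinima

open Finset Pool.Agent.Kiss34

/-- One certificate bounds every finite set of minimal vectors. -/
theorem main (m : ℕ) (hm : 0 < m) (c : Fin 8 → ℝ) (hc : ∀ k, 0 ≤ c k) (f : ℝ → ℝ)
    (hf : ∀ t, f t = ∑ k, c k * gp k t) (hev : ∀ t, f (-t) = f t)
    (hle : ∀ j : ℤ, -(m : ℤ) ≤ 2 * j → 2 * j ≤ m → f ((j : ℝ) / m) ≤ 0) (h1 : 0 ≤ f 1)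
    (L : AddSubgroup (EuclideanSpace ℝ (Fin 16)))
    (hI : ∀ x ∈ L, ∀ y ∈ L, ∃ j : ℤ, inner ℝ x y = (j : ℝ))
    (hmin : ∀ x ∈ L, x ≠ 0 → (m : ℝ) ≤ ‖x‖ ^ 2)
    (F : Finset (EuclideanSpace ℝ (Fin 16))) (hF : ∀ x ∈ F, x ∈ L ∧ ‖x‖ ^ 2 = (m : ℝ)) :
    c 0 * (F.card : ℝ) ≤ 2 * f 1 := by
  classical
  have hm' : (0 : ℝ) < m := by exact_mod_cast hm
  obtain ⟨r, hr0, hr⟩ : ∃ r : ℝ, 0 < r ∧ r ^ 2 = m :=
    ⟨Real.sqrt m, Real.sqrt_pos.mpr hm', Real.sq_sqrt hm'.le⟩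
  set G : Finset (EuclideanSpace ℝ (Fin 16)) := F ∪ F.image fun x => -x with hGdef
  have hG : ∀ x ∈ G, x ∈ L ∧ ‖x‖ ^ 2 = (m : ℝ) := by
    intro x hx
    rcases Finset.mem_union.mp hx with h | h
    · exact hF x h
    · obtain ⟨z, hz, rfl⟩ := Finset.mem_image.mp h
      exact ⟨L.neg_mem (hF z hz).1, by rw [norm_neg]; exact (hF z hz).2⟩
  have hGneg : ∀ x ∈ G, -x ∈ G := by
    intro x hx
    rcases Finset.mem_union.mp hx with h | h
    · exact Finset.mem_union_right _ (Finset.mem_image.mpr ⟨x, h, rfl⟩)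
    · obtain ⟨z, hz, rfl⟩ := Finset.mem_image.mp h
      rw [neg_neg]
      exact Finset.mem_union_left _ hz
  have hnorm : ∀ x ∈ G, ‖x‖ = r := by
    intro x hx
    have h := (hG x hx).2
    rw [← hr] at h
    exact (pow_left_inj₀ (norm_nonneg x) hr0.le two_ne_zero).mp h
  have hinj : Function.Injective fun x : EuclideanSpace ℝ (Fin 16) => r⁻¹ • x :=
    smul_right_injective _ (inv_ne_zero hr0.ne')
  have key := card_le_of_cert_anti c hc f hf hev (G.image fun x => r⁻¹ • x)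
    (by
      intro x' hx'
      obtain ⟨x, hx, rfl⟩ := Finset.mem_image.mp hx'
      rw [norm_smul, hnorm x hx, norm_inv, Real.norm_of_nonneg hr0.le]
      exact inv_mul_cancel₀ hr0.ne')
    (by
      intro x' hx'
      obtain ⟨x, hx, rfl⟩ := Finset.mem_image.mp hx'
      exact Finset.mem_image.mpr ⟨-x, hGneg x hx, smul_neg _ _⟩)
    (by
      intro x' hx' y' hy' hxy hyx
      obtain ⟨x, hx, rfl⟩ := Finset.mem_image.mp hx'
      obtain ⟨y, hy, rfl⟩ := Finset.mem_image.mp hy'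
      have hxL := (hG x hx).1
      have hyL := (hG y hy).1
      obtain ⟨j, hj⟩ := hI x hxL y hyL
      have h2 : (inner ℝ (r⁻¹ • x) (r⁻¹ • y) : ℝ) = (j : ℝ) / m := by
        rw [real_inner_smul_left, real_inner_smul_right, hj, ← hr]
        field_simp
      rw [h2]
      have hne1 : x - y ≠ 0 := by
        intro h
        exact hxy (by rw [sub_eq_zero.mp h])
      have hne2 : x + y ≠ 0 := by
        intro h
        apply hyx
        rw [← smul_neg, eq_neg_of_add_eq_zero_right h]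
      have h3 := hmin (x - y) (L.sub_mem hxL hyL) hne1
      have h4 := hmin (x + y) (L.add_mem hxL hyL) hne2
      rw [norm_sub_sq_real, (hG x hx).2, (hG y hy).2, hj] at h3
      rw [norm_add_sq_real, (hG x hx).2, (hG y hy).2, hj] at h4
      refine hle j ?_ ?_
      · have h5 : ((-(m : ℤ) : ℤ) : ℝ) ≤ ((2 * j : ℤ) : ℝ) := by
          push_cast
          linarith
        exact_mod_cast h5
      · have h5 : ((2 * j : ℤ) : ℝ) ≤ ((m : ℤ) : ℝ) := by
          push_cast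
          linarith
        exact_mod_cast h5)
    h1
  rw [Finset.card_image_of_injective _ hinj] at key
  have h6 : (F.card : ℝ) ≤ G.card := by
    exact_mod_cast Finset.card_le_card Finset.subset_union_left
  exact (mul_le_mul_of_nonneg_left h6 (hc 0)).trans key

theorem fin_of (B : ℕ) (T : Set (EuclideanSpace ℝ (Fin 16)))
    (h : ∀ F : Finset (EuclideanSpace ℝ (Fin 16)), (∀ x ∈ F, x ∈ T) → F.card ≤ B) :
    T.Finite ∧ T.ncard ≤ B := by
  have hfin : T.Finite := by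
    by_contra hinf
    obtain ⟨t, ht, hc⟩ := Set.Infinite.exists_subset_card_eq hinf (B + 1)
    have := h t fun x hx => ht (Finset.mem_coe.mpr hx)
    omega
  refine ⟨hfin, ?_⟩
  rw [Set.ncard_eq_toFinset_card T hfin]
  exact h _ fun x hx => (Set.Finite.mem_toFinset hfin).mp hx

theorem lat1 (L : AddSubgroup (EuclideanSpace ℝ (Fin 16)))
    (hI : ∀ x ∈ L, ∀ y ∈ L, ∃ j : ℤ, inner ℝ x y = (j : ℝ))
    (hmin : ∀ x ∈ L, x ≠ 0 → ((1 : ℕ) : ℝ) ≤ ‖x‖ ^ 2)
    (F : Finset (EuclideanSpace ℝ (Fin 16)))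
    (hF : ∀ x ∈ F, x ∈ L ∧ ‖x‖ ^ 2 = ((1 : ℕ) : ℝ)) : F.card ≤ 32 := by
  have h := main 1 (by norm_num)
    ![1 / 16, 0, 1, 0, 0, 0, 0, 0]
    (by intro k; fin_cases k <;> norm_num)
    (fun t => t ^ 2)
    (by
      intro t
      simp [gp, Fin.sum_univ_succ]
      try ring)
    (by intro t; ring)
    (by
      intro j h1 h2
      have h3 : j ≤ 0 := by omega
      have h4 : -0 ≤ j := by omega
      clear h1 h2
      interval_cases j
      norm_num)
    (by norm_num) L hI hmin F hF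
  norm_num at h
  have h' : (F.card : ℝ) < 32 + 1 := by linarith
  have h'' : F.card < 32 + 1 := by exact_mod_cast h'
  omega

theorem lat2 (L : AddSubgroup (EuclideanSpace ℝ (Fin 16)))
    (hI : ∀ x ∈ L, ∀ y ∈ L, ∃ j : ℤ, inner ℝ x y = (j : ℝ))
    (hmin : ∀ x ∈ L, x ≠ 0 → ((2 : ℕ) : ℝ) ≤ ‖x‖ ^ 2)
    (F : Finset (EuclideanSpace ℝ (Fin 16)))
    (hF : ∀ x ∈ F, x ∈ L ∧ ‖x‖ ^ 2 = ((2 : ℕ) : ℝ)) : F.card ≤ 480 := by
  have h := main 2 (by norm_num)
    ![1, 0, 48 / 11, 0, 0, 0, 512, 0]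
    (by intro k; fin_cases k <;> norm_num)
    (fun t => 512 * t ^ 6 - 320 * t ^ 4 + 48 * t ^ 2)
    (by
      intro t
      simp [gp, Fin.sum_univ_succ]
      try ring)
    (by intro t; ring)
    (by
      intro j h1 h2
      have h3 : j ≤ 1 := by omega
      have h4 : -1 ≤ j := by omega
      clear h1 h2
      interval_cases j <;> norm_num)
    (by norm_num) L hI hmin F hF
  norm_num at h
  have h0 : (F.card : ℝ) ≤ 480 := by exact_mod_cast h
  have h' : (F.card : ℝ) < 480 + 1 := by linarith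
  have h'' : F.card < 480 + 1 := by exact_mod_cast h'
  omega

theorem lat3 (L : AddSubgroup (EuclideanSpace ℝ (Fin 16)))
    (hI : ∀ x ∈ L, ∀ y ∈ L, ∃ j : ℤ, inner ℝ x y = (j : ℝ))
    (hmin : ∀ x ∈ L, x ≠ 0 → ((3 : ℕ) : ℝ) ≤ ‖x‖ ^ 2)
    (F : Finset (EuclideanSpace ℝ (Fin 16)))
    (hF : ∀ x ∈ F, x ∈ L ∧ ‖x‖ ^ 2 = ((3 : ℕ) : ℝ)) : F.card ≤ 512 := by
  have h := main 3 (by norm_num)
    ![1 / 288, 0, 17 / 90, 0, 1, 0, 0, 0]
    (by intro k; fin_cases k <;> norm_num)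
    (fun t => (t ^ 2 - 1 / 9) * t ^ 2)
    (by
      intro t
      simp [gp, Fin.sum_univ_succ]
      try ring)
    (by intro t; ring)
    (by
      intro j h1 h2
      have h3 : j ≤ 1 := by omega
      have h4 : -1 ≤ j := by omega
      clear h1 h2
      interval_cases j <;> norm_num)
    (by norm_num) L hI hmin F hF
  norm_num at h
  have h' : (F.card : ℝ) < 512 + 1 := by linarith
  have h'' : F.card < 512 + 1 := by exact_mod_cast h'
  omega

theorem lat4 (L : AddSubgroup (EuclideanSpace ℝ (Fin 16)))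
    (hI : ∀ x ∈ L, ∀ y ∈ L, ∃ j : ℤ, inner ℝ x y = (j : ℝ))
    (hmin : ∀ x ∈ L, x ≠ 0 → ((4 : ℕ) : ℝ) ≤ ‖x‖ ^ 2)
    (F : Finset (EuclideanSpace ℝ (Fin 16)))
    (hF : ∀ x ∈ F, x ∈ L ∧ ‖x‖ ^ 2 = ((4 : ℕ) : ℝ)) : F.card ≤ 4320 := by
  have h := main 4 (by norm_num)
    ![1 / 3072, 0, 17 / 704, 0, 5 / 16, 0, 1, 0]
    (by intro k; fin_cases k <;> norm_num)
    (fun t => t ^ 2 * (t ^ 2 - 1 / 4) * (t ^ 2 - 1 / 16))
    (by
      intro t
      simp [gp, Fin.sum_univ_succ]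
      try ring)
    (by intro t; ring)
    (by
      intro j h1 h2
      have h3 : j ≤ 2 := by omega
      have h4 : -2 ≤ j := by omega
      clear h1 h2
      interval_cases j <;> norm_num)
    (by norm_num) L hI hmin F hF
  norm_num at h
  have h' : (F.card : ℝ) < 4320 + 1 := by linarith
  have h'' : F.card < 4320 + 1 := by exact_mod_cast h'
  omega

theorem lat5 (L : AddSubgroup (EuclideanSpace ℝ (Fin 16)))
    (hI : ∀ x ∈ L, ∀ y ∈ L, ∃ j : ℤ, inner ℝ x y = (j : ℝ))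
    (hmin : ∀ x ∈ L, x ≠ 0 → ((5 : ℕ) : ℝ) ≤ ‖x‖ ^ 2)
    (F : Finset (EuclideanSpace ℝ (Fin 16)))
    (hF : ∀ x ∈ F, x ∈ L ∧ ‖x‖ ^ 2 = ((5 : ℕ) : ℝ)) : F.card ≤ 1751 := by
  have h := main 5 (by norm_num)
    ![221 / 240000, 0, 2677 / 55000, 0, 17 / 40, 0, 1, 0]
    (by intro k; fin_cases k <;> norm_num)
    (fun t => (t ^ 2 - 4 / 25) * t ^ 2 * (t ^ 2 - 1 / 25))
    (by
      intro t
      simp [gp, Fin.sum_univ_succ]
      try ring)
    (by intro t; ring)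
    (by
      intro j h1 h2
      have h3 : j ≤ 2 := by omega
      have h4 : -2 ≤ j := by omega
      clear h1 h2
      interval_cases j <;> norm_num)
    (by norm_num) L hI hmin F hF
  norm_num at h
  have h' : (F.card : ℝ) < 1751 + 1 := by linarith
  have h'' : F.card < 1751 + 1 := by exact_mod_cast h'
  omega

theorem lat7 (L : AddSubgroup (EuclideanSpace ℝ (Fin 16)))
    (hI : ∀ x ∈ L, ∀ y ∈ L, ∃ j : ℤ, inner ℝ x y = (j : ℝ))
    (hmin : ∀ x ∈ L, x ≠ 0 → ((7 : ℕ) : ℝ) ≤ ‖x‖ ^ 2)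
    (F : Finset (EuclideanSpace ℝ (Fin 16)))
    (hF : ∀ x ∈ F, x ∈ L ∧ ‖x‖ ^ 2 = ((7 : ℕ) : ℝ)) : F.card ≤ 2244 := by
  have h := main 7 (by norm_num)
    ![219 / 307328, 0, 9465 / 211288, 0, 165 / 392, 0, 1, 0]
    (by intro k; fin_cases k <;> norm_num)
    (fun t => (t ^ 2 - 9 / 49) * t ^ 2 * (t ^ 2 - 1 / 49))
    (by
      intro t
      simp [gp, Fin.sum_univ_succ]
      try ring)
    (by intro t; ring)
    (by
      intro j h1 h2
      have h3 : j ≤ 3 := by omega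
      have h4 : -3 ≤ j := by omega
      clear h1 h2
      interval_cases j <;> norm_num)
    (by norm_num) L hI hmin F hF
  norm_num at h
  have h' : (F.card : ℝ) < 2244 + 1 := by linarith
  have h'' : F.card < 2244 + 1 := by exact_mod_cast h'
  omega

theorem lat9 (L : AddSubgroup (EuclideanSpace ℝ (Fin 16)))
    (hI : ∀ x ∈ L, ∀ y ∈ L, ∃ j : ℤ, inner ℝ x y = (j : ℝ))
    (hmin : ∀ x ∈ L, x ≠ 0 → ((9 : ℕ) : ℝ) ≤ ‖x‖ ^ 2)
    (F : Finset (EuclideanSpace ℝ (Fin 16)))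
    (hF : ∀ x ∈ F, x ∈ L ∧ ‖x‖ ^ 2 = ((9 : ℕ) : ℝ)) : F.card ≤ 2583 := by
  have h := main 9 (by norm_num)
    ![39679 / 68024448, 0, 35891 / 962280, 0, 79 / 216, 0, 1, 0]
    (by intro k; fin_cases k <;> norm_num)
    (fun t => (t ^ 2 - 16 / 81) * (t ^ 2 - 1 / 81) * (t ^ 2 - 4 / 81))
    (by
      intro t
      simp [gp, Fin.sum_univ_succ]
      try ring)
    (by intro t; ring)
    (by
      intro j h1 h2
      have h3 : j ≤ 4 := by omega
      have h4 : -4 ≤ j := by omega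
      clear h1 h2
      interval_cases j <;> norm_num)
    (by norm_num) L hI hmin F hF
  norm_num at h
  have h' : (F.card : ℝ) < 2583 + 1 := by linarith
  have h'' : F.card < 2583 + 1 := by exact_mod_cast h'
  omega

theorem lat11 (L : AddSubgroup (EuclideanSpace ℝ (Fin 16)))
    (hI : ∀ x ∈ L, ∀ y ∈ L, ∃ j : ℤ, inner ℝ x y = (j : ℝ))
    (hmin : ∀ x ∈ L, x ≠ 0 → ((11 : ℕ) : ℝ) ≤ ‖x‖ ^ 2)
    (F : Finset (EuclideanSpace ℝ (Fin 16)))
    (hF : ∀ x ∈ F, x ∈ L ∧ ‖x‖ ^ 2 = ((11 : ℕ) : ℝ)) : F.card ≤ 2950 := by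
  have h := main 11 (by norm_num)
    ![350857 / 680279424, 0, 4299 / 117128, 0, 365 / 968, 0, 1, 0]
    (by intro k; fin_cases k <;> norm_num)
    (fun t => (t ^ 2 - 25 / 121) * (t ^ 2 - 1 / 121) * (t ^ 2 - 4 / 121))
    (by
      intro t
      simp [gp, Fin.sum_univ_succ]
      try ring)
    (by intro t; ring)
    (by
      intro j h1 h2
      have h3 : j ≤ 5 := by omega
      have h4 : -5 ≤ j := by omega
      clear h1 h2
      interval_cases j <;> norm_num)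
    (by norm_num) L hI hmin F hF
  norm_num at h
  have h' : (F.card : ℝ) < 2950 + 1 := by linarith
  have h'' : F.card < 2950 + 1 := by exact_mod_cast h'
  omega

theorem lat13 (L : AddSubgroup (EuclideanSpace ℝ (Fin 16)))
    (hI : ∀ x ∈ L, ∀ y ∈ L, ∃ j : ℤ, inner ℝ x y = (j : ℝ))
    (hmin : ∀ x ∈ L, x ≠ 0 → ((13 : ℕ) : ℝ) ≤ ‖x‖ ^ 2)
    (F : Finset (EuclideanSpace ℝ (Fin 16)))
    (hF : ∀ x ∈ F, x ∈ L ∧ ‖x‖ ^ 2 = ((13 : ℕ) : ℝ)) : F.card ≤ 3395 := by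
  have h := main 13 (by norm_num)
    ![833813 / 1853494656, 0, 451577 / 12566840, 0, 517 / 1352, 0, 1, 0]
    (by intro k; fin_cases k <;> norm_num)
    (fun t => (t ^ 2 - 36 / 169) * (t ^ 2 - 1 / 169) * (t ^ 2 - 4 / 169))
    (by
      intro t
      simp [gp, Fin.sum_univ_succ]
      try ring)
    (by intro t; ring)
    (by
      intro j h1 h2
      have h3 : j ≤ 6 := by omega
      have h4 : -6 ≤ j := by omega
      clear h1 h2
      interval_cases j <;> norm_num)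
    (by norm_num) L hI hmin F hF
  norm_num at h
  have h' : (F.card : ℝ) < 3395 + 1 := by linarith
  have h'' : F.card < 3395 + 1 := by exact_mod_cast h'
  omega

theorem lat15 (L : AddSubgroup (EuclideanSpace ℝ (Fin 16)))
    (hI : ∀ x ∈ L, ∀ y ∈ L, ∃ j : ℤ, inner ℝ x y = (j : ℝ))
    (hmin : ∀ x ∈ L, x ≠ 0 → ((15 : ℕ) : ℝ) ≤ ‖x‖ ^ 2)
    (F : Finset (EuclideanSpace ℝ (Fin 16)))
    (hF : ∀ x ∈ F, x ∈ L ∧ ‖x‖ ^ 2 = ((15 : ℕ) : ℝ)) : F.card ≤ 3599 := by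
  have h := main 15 (by norm_num)
    ![22129 / 54000000, 0, 146569 / 4455000, 0, 629 / 1800, 0, 1, 0]
    (by intro k; fin_cases k <;> norm_num)
    (fun t => (t ^ 2 - 49 / 225) * (t ^ 2 - 4 / 225) * (t ^ 2 - 9 / 225))
    (by
      intro t
      simp [gp, Fin.sum_univ_succ]
      try ring)
    (by intro t; ring)
    (by
      intro j h1 h2
      have h3 : j ≤ 7 := by omega
      have h4 : -7 ≤ j := by omega
      clear h1 h2
      interval_cases j <;> norm_num)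
    (by norm_num) L hI hmin F hF
  norm_num at h
  have h' : (F.card : ℝ) < 3599 + 1 := by linarith
  have h'' : F.card < 3599 + 1 := by exact_mod_cast h'
  omega

theorem lat17 (L : AddSubgroup (EuclideanSpace ℝ (Fin 16)))
    (hI : ∀ x ∈ L, ∀ y ∈ L, ∃ j : ℤ, inner ℝ x y = (j : ℝ))
    (hmin : ∀ x ∈ L, x ≠ 0 → ((17 : ℕ) : ℝ) ≤ ‖x‖ ^ 2)
    (F : Finset (EuclideanSpace ℝ (Fin 16)))
    (hF : ∀ x ∈ F, x ∈ L ∧ ‖x‖ ^ 2 = ((17 : ℕ) : ℝ)) : F.card ≤ 3885 := by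
  have h := main 17 (by norm_num)
    ![3548813 / 9268826496, 0, 1202969 / 36749240, 0, 829 / 2312, 0, 1, 0]
    (by intro k; fin_cases k <;> norm_num)
    (fun t => (t ^ 2 - 64 / 289) * (t ^ 2 - 4 / 289) * (t ^ 2 - 9 / 289))
    (by
      intro t
      simp [gp, Fin.sum_univ_succ]
      try ring)
    (by intro t; ring)
    (by
      intro j h1 h2
      have h3 : j ≤ 8 := by omega
      have h4 : -8 ≤ j := by omega
      clear h1 h2
      interval_cases j <;> norm_num)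
    (by norm_num) L hI hmin F hF
  norm_num at h
  have h' : (F.card : ℝ) < 3885 + 1 := by linarith
  have h'' : F.card < 3885 + 1 := by exact_mod_cast h'
  omega

theorem lat19 (L : AddSubgroup (EuclideanSpace ℝ (Fin 16)))
    (hI : ∀ x ∈ L, ∀ y ∈ L, ∃ j : ℤ, inner ℝ x y = (j : ℝ))
    (hmin : ∀ x ∈ L, x ≠ 0 → ((19 : ℕ) : ℝ) ≤ ‖x‖ ^ 2)
    (F : Finset (EuclideanSpace ℝ (Fin 16)))
    (hF : ∀ x ∈ F, x ∈ L ∧ ‖x‖ ^ 2 = ((19 : ℕ) : ℝ)) : F.card ≤ 4248 := by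
  have h := main 19 (by norm_num)
    ![2120179 / 6021872768, 0, 1864317 / 57341240, 0, 1053 / 2888, 0, 1, 0]
    (by intro k; fin_cases k <;> norm_num)
    (fun t => (t ^ 2 - 81 / 361) * (t ^ 2 - 4 / 361) * (t ^ 2 - 9 / 361))
    (by
      intro t
      simp [gp, Fin.sum_univ_succ]
      try ring)
    (by intro t; ring)
    (by
      intro j h1 h2
      have h3 : j ≤ 9 := by omega
      have h4 : -9 ≤ j := by omega
      clear h1 h2
      interval_cases j <;> norm_num)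
    (by norm_num) L hI hmin F hF
  norm_num at h
  have h' : (F.card : ℝ) < 4248 + 1 := by linarith
  have h'' : F.card < 4248 + 1 := by exact_mod_cast h'
  omega

/-- Let `L` be an additive subgroup of `R^16` on which inner products are integers, and let all
nonzero vectors of `L` have squared norm at least `m`. For the twelve pairs `(m, B)`, `L` has at
most `B` vectors of squared norm `m`. -/
theorem result (m B : ℕ)
    (hm : (m, B) ∈ ({(1, 32), (2, 480), (3, 512), (4, 4320), (5, 1751), (7, 2244), (9, 2583),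
      (11, 2950), (13, 3395), (15, 3599), (17, 3885), (19, 4248)} : Finset (ℕ × ℕ)))
    (L : AddSubgroup (EuclideanSpace ℝ (Fin 16)))
    (hI : ∀ x ∈ L, ∀ y ∈ L, ∃ j : ℤ, inner ℝ x y = (j : ℝ))
    (hmin : ∀ x ∈ L, x ≠ 0 → (m : ℝ) ≤ ‖x‖ ^ 2) :
    {x | x ∈ L ∧ ‖x‖ ^ 2 = (m : ℝ)}.Finite ∧ {x | x ∈ L ∧ ‖x‖ ^ 2 = (m : ℝ)}.ncard ≤ B := by
  simp only [Finset.mem_insert, Finset.mem_singleton, Prod.mk.injEq] at hm
  refine fin_of B _ ?_
  rcases hm with ⟨rfl, rfl⟩ | ⟨rfl, rfl⟩ | ⟨rfl, rfl⟩ | ⟨rfl, rfl⟩ | ⟨rfl, rfl⟩ | ⟨rfl, rfl⟩ |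
    ⟨rfl, rfl⟩ | ⟨rfl, rfl⟩ | ⟨rfl, rfl⟩ | ⟨rfl, rfl⟩ | ⟨rfl, rfl⟩ | ⟨rfl, rfl⟩
  · exact lat1 L hI hmin
  · exact lat2 L hI hmin
  · exact lat3 L hI hmin
  · exact lat4 L hI hmin
  · exact lat5 L hI hmin
  · exact lat7 L hI hmin
  · exact lat9 L hI hmin
  · exact lat11 L hI hmin
  · exact lat13 L hI hmin
  · exact lat15 L hI hmin
  · exact lat17 L hI hmin
  · exact lat19 L hI hmin

end Pool.Agent.Results.MP_0ddb56_co.LatticeMinima
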