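import Pool.Agent.Kiss34.LP

/-! MP_0ddb56: kissing configurations in dimension 16 and two windows of inner products. -/

set_option autoImplicit false

namespace Pool.Agent.Results.MP_0ddb56_co.Windows

open Finset Pool.Agent.Kiss34

/-- The two open windows. -/
def win (t : ℝ) : Prop := (-1 / 2 < t ∧ t < -1 / 4) ∨ (0 < t ∧ t < 1 / 4)

theorem f_nonpos (t : ℝ) (h1 : -1 ≤ t) (h2 : t ≤ 1 / 2) (hw : ¬ win t) :
    (t + 1) * t * (t ^ 2 - 1 / 4) * (t ^ 2 - 1 / 16) ≤ 0 := by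
  unfold win at hw
  push Not at hw
  obtain ⟨ha, hb⟩ := hw
  rcases le_or_gt t (-1 / 2) with h3 | h3
  · have e1 : 0 ≤ t + 1 := by linarith
    have e2 : t ≤ 0 := by linarith
    have e3 : 0 ≤ t ^ 2 - 1 / 4 := by nlinarith
    have e4 : 0 ≤ t ^ 2 - 1 / 16 := by linarith
    exact mul_nonpos_of_nonpos_of_nonneg (mul_nonpos_of_nonpos_of_nonneg
      (mul_nonpos_of_nonneg_of_nonpos e1 e2) e3) e4
  · have h4 := ha h3
    rcases le_or_gt t 0 with h5 | h5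
    · have e1 : 0 ≤ t + 1 := by linarith
      have e3 : t ^ 2 - 1 / 4 ≤ 0 := by nlinarith
      have e4 : t ^ 2 - 1 / 16 ≤ 0 := by nlinarith
      exact mul_nonpos_of_nonneg_of_nonpos (mul_nonneg_of_nonpos_of_nonpos
        (mul_nonpos_of_nonneg_of_nonpos e1 h5) e3) e4
    · have h6 := hb h5
      have e1 : 0 ≤ t + 1 := by linarith
      have e3 : t ^ 2 - 1 / 4 ≤ 0 := by nlinarith
      have e4 : 0 ≤ t ^ 2 - 1 / 16 := by nlinarith
      exact mul_nonpos_of_nonpos_of_nonneg (mul_nonpos_of_nonneg_of_nonpos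
        (mul_nonneg e1 h5.le) e3) e4

theorem f_le (t : ℝ) (hw : win t) :
    (t + 1) * t * (t ^ 2 - 1 / 4) * (t ^ 2 - 1 / 16) ≤ 5 / 2304 := by
  rcases hw with ⟨h1, h2⟩ | ⟨h1, h2⟩
  · -- `p = - t (1 + t)`, `q = (1/4 - t ^ 2) (t ^ 2 - 1/16)`
    have ep : 0 ≤ -t * (1 + t) := mul_nonneg (by linarith) (by linarith)
    have eq1 : 0 ≤ 1 / 4 - t ^ 2 := by nlinarith
    have eq2 : 0 ≤ t ^ 2 - 1 / 16 := by nlinarith
    have eq : 0 ≤ (1 / 4 - t ^ 2) * (t ^ 2 - 1 / 16) := mul_nonneg eq1 eq2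
    have e : (t + 1) * t * (t ^ 2 - 1 / 4) * (t ^ 2 - 1 / 16) =
        (-t * (1 + t)) * ((1 / 4 - t ^ 2) * (t ^ 2 - 1 / 16)) := by ring
    rw [e]
    rcases le_or_gt (-21 / 50) t with h3 | h3
    · have hp : -t * (1 + t) ≤ 609 / 2500 := by nlinarith
      have hq : (1 / 4 - t ^ 2) * (t ^ 2 - 1 / 16) ≤ 9 / 1024 := by
        nlinarith [sq_nonneg (t ^ 2 - 5 / 32)]
      have := mul_le_mul hp hq eq (by norm_num)
      refine this.trans ?_
      norm_num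
    · have hp : -t * (1 + t) ≤ 1 / 4 := by nlinarith [sq_nonneg (t + 1 / 2)]
      have ht : (441 : ℝ) / 2500 ≤ t ^ 2 := by nlinarith
      have hq : (1 / 4 - t ^ 2) * (t ^ 2 - 1 / 16) ≤ 8384 / 1000000 := by
        nlinarith [mul_nonneg (sub_nonneg.mpr ht) (sub_nonneg.mpr ht)]
      have := mul_le_mul hp hq eq (by norm_num)
      refine this.trans ?_
      norm_num
  · have ep : 0 ≤ (t + 1) := by linarith
    have eq1 : 0 ≤ 1 / 4 - t ^ 2 := by nlinarith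
    have eq2 : 0 ≤ 1 / 16 - t ^ 2 := by nlinarith
    have eq : 0 ≤ t * ((1 / 4 - t ^ 2) * (1 / 16 - t ^ 2)) := mul_nonneg h1.le (mul_nonneg eq1 eq2)
    have e : (t + 1) * t * (t ^ 2 - 1 / 4) * (t ^ 2 - 1 / 16) =
        (t + 1) * (t * ((1 / 4 - t ^ 2) * (1 / 16 - t ^ 2))) := by ring
    rw [e]
    have hp : t + 1 ≤ 5 / 4 := by linarith
    have hq : t * ((1 / 4 - t ^ 2) * (1 / 16 - t ^ 2)) ≤ 1 / 576 := by
      have h4 : t * (1 / 16 - t ^ 2) ≤ 1 / 144 := by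
        nlinarith [mul_nonneg h1.le (sq_nonneg (t - 1 / 7)), sq_nonneg (t - 1 / 7)]
      have h5 : 0 ≤ t * (1 / 16 - t ^ 2) := mul_nonneg h1.le eq2
      have h6 : 1 / 4 - t ^ 2 ≤ 1 / 4 := by nlinarith
      have := mul_le_mul h6 h4 h5 (by norm_num)
      nlinarith
    have := mul_le_mul hp hq eq (by norm_num)
    refine this.trans ?_
    norm_num

/-- A kissing configuration of `N` points in `R^16` has at least `(3/20) N (N - 4320)` ordered
pairs of points whose inner product lies in one of the open intervals `(-1/2, -1/4)`, `(0, 1/4)`. -/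
theorem result (S : Finset (EuclideanSpace ℝ (Fin 16))) (hS : ∀ x ∈ S, ‖x‖ = 1)
    (hK : ∀ x ∈ S, ∀ y ∈ S, x ≠ y → 1 ≤ ‖x - y‖) :
    3 / 20 * ((S.card : ℝ) * ((S.card : ℝ) - 4320)) ≤
      (Set.ncard {p : EuclideanSpace ℝ (Fin 16) × EuclideanSpace ℝ (Fin 16) |
        p.1 ∈ S ∧ p.2 ∈ S ∧
        ((-1 / 2 < inner ℝ p.1 p.2 ∧ inner ℝ p.1 p.2 < (-1 / 4 : ℝ)) ∨
          (0 < inner ℝ p.1 p.2 ∧ inner ℝ p.1 p.2 < (1 / 4 : ℝ)))} : ℝ) := by
  classical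
  set W : Finset (EuclideanSpace ℝ (Fin 16) × EuclideanSpace ℝ (Fin 16)) :=
    (S ×ˢ S).filter fun p => win (inner ℝ p.1 p.2) with hW
  have hset : {p : EuclideanSpace ℝ (Fin 16) × EuclideanSpace ℝ (Fin 16) |
        p.1 ∈ S ∧ p.2 ∈ S ∧
        ((-1 / 2 < inner ℝ p.1 p.2 ∧ inner ℝ p.1 p.2 < (-1 / 4 : ℝ)) ∨
          (0 < inner ℝ p.1 p.2 ∧ inner ℝ p.1 p.2 < (1 / 4 : ℝ)))} = (W : Set _) := by
    ext p
    rw [hW, Finset.mem_coe, Finset.mem_filter, Finset.mem_product]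
    exact ⟨fun h => ⟨⟨h.1, h.2.1⟩, h.2.2⟩, fun h => ⟨h.1.1, h.1.2, h.2⟩⟩
  rw [hset, Set.ncard_coe_finset]
  have hlp := lp ![(1 : ℝ) / 3072, 1 / 192, 17 / 704, 25 / 176, 5 / 16, 1, 1, 0]
    (by intro k; fin_cases k <;> norm_num) _ win_cert S hS
  have hsum : ∑ x ∈ S, ∑ y ∈ S.erase x, ((inner ℝ x y : ℝ) + 1) * (inner ℝ x y) *
      ((inner ℝ x y) ^ 2 - 1 / 4) * ((inner ℝ x y) ^ 2 - 1 / 16) ≤ 5 / 2304 * (W.card : ℝ) := by
    have h1 : ∀ x ∈ S, ∀ y ∈ S.erase x, ((inner ℝ x y : ℝ) + 1) * (inner ℝ x y) *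
        ((inner ℝ x y) ^ 2 - 1 / 4) * ((inner ℝ x y) ^ 2 - 1 / 16) ≤
          if win (inner ℝ x y) then (5 / 2304 : ℝ) else 0 := by
      intro x hx y hy
      split_ifs with hw
      · exact f_le _ hw
      · exact f_nonpos _ (neg_one_le_inner (hS x hx) (hS y (Finset.mem_of_mem_erase hy)))
          (inner_le_half (hS x hx) (hS y (Finset.mem_of_mem_erase hy))
            (hK x hx y (Finset.mem_of_mem_erase hy) (Finset.ne_of_mem_erase hy).symm)) hw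
    have h2 : (W.card : ℝ) = ∑ x ∈ S, ∑ y ∈ S, if win (inner ℝ x y) then (1 : ℝ) else 0 := by
      rw [hW, Finset.card_filter, ← Finset.sum_product']
      push_cast
      rfl
    have h3 : ∀ x ∈ S, ∑ y ∈ S.erase x, (if win (inner ℝ x y) then (5 / 2304 : ℝ) else 0) ≤
        5 / 2304 * ∑ y ∈ S, if win (inner ℝ x y) then (1 : ℝ) else 0 := by
      intro x hx
      rw [Finset.mul_sum]
      refine (Finset.sum_le_sum_of_subset_of_nonneg (Finset.erase_subset x S) ?_).trans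
        (Finset.sum_le_sum fun y _ => ?_)
      · intro y _ _
        split_ifs <;> norm_num
      · split_ifs <;> norm_num
    calc ∑ x ∈ S, ∑ y ∈ S.erase x, ((inner ℝ x y : ℝ) + 1) * (inner ℝ x y) *
          ((inner ℝ x y) ^ 2 - 1 / 4) * ((inner ℝ x y) ^ 2 - 1 / 16)
        ≤ ∑ x ∈ S, ∑ y ∈ S.erase x, (if win (inner ℝ x y) then (5 / 2304 : ℝ) else 0) :=
          Finset.sum_le_sum fun x hx => Finset.sum_le_sum fun y hy => h1 x hx y hy
      _ ≤ ∑ x ∈ S, 5 / 2304 * ∑ y ∈ S, (if win (inner ℝ x y) then (1 : ℝ) else 0) :=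
          Finset.sum_le_sum fun x hx => h3 x hx
      _ = 5 / 2304 * (W.card : ℝ) := by rw [h2, Finset.mul_sum]
  have h0 : (![(1 : ℝ) / 3072, 1 / 192, 17 / 704, 25 / 176, 5 / 16, 1, 1, 0] :
    Fin 8 → ℝ) 0 = 1 / 3072 := rfl
  rw [h0] at hlp
  norm_num at hlp
  nlinarith

end Pool.Agent.Results.MP_0ddb56_co.Windows
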